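import Pool.Agent.L5helper32.GP.Det

set_option autoImplicit false

open Finset MeasureTheory ProbabilityTheory

namespace Pool.Agent.L5helper32.GP

open Pool.Agent.L5helper32.GR (Root w pr sg Dep lev q)

theorem nx_iter {p : ℕ} (T : ℕ → ℕ → ℕ → ℕ) (z : ℕ) (hx0 : (z + 1) ^ p - 1 + (z + 1) = lev p z) (i₀ : ℕ)
    (hne : ∀ i < i₀, val p T z i ≠ 0) (i : ℕ) (hi : i ≤ i₀) :
    (step p T)^[i] ((z + 1) ^ p - 1, lev p z) = (val p T z i, val p T z i + (z + 1 + i)) := by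
  induction i with
  | zero => simp only [Function.iterate_zero, id, val]; rw [add_zero, hx0]
  | succ i ih =>
    rw [Function.iterate_succ_apply', ih (by omega)]
    have h0 := hne i (by omega)
    have hle := jump_le p (T (val p T z i + (z + 1 + i))) h0
    simp only [step, val, Prod.mk.injEq, true_and]
    omega

theorem nx_fix {p : ℕ} (T : ℕ → ℕ → ℕ → ℕ) (c j : ℕ) : (step p T)^[j] (0, c) = (0, c) := by
  induction j with
  | zero => rfl
  | succ j ih =>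
    rw [Function.iterate_succ_apply, show step p T (0, c) = (0, c) by
      simp [step, jump_zero], ih]

theorem nx_val_le {p : ℕ} (T : ℕ → ℕ → ℕ → ℕ) (z : ℕ) (i : ℕ) :
    val p T z i ≤ (z + 1) ^ p - 1 - i := by
  induction i with
  | zero => simp [val]
  | succ i ih =>
    have h1 := jump_pos p (T (val p T z i + (z + 1 + i))) (val p T z i)
    simp only [val]
    omega

theorem nextZero_eq {p : ℕ} (hp : 1 ≤ p) (T : ℕ → ℕ → ℕ → ℕ) {z : ℕ} (hz : 1 ≤ z) :
    nextZero p T z = fin p T ((z + 1) ^ p - 1) (lev p z) := by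
  have hpow : 1 ≤ (z + 1) ^ p := Nat.one_le_pow _ _ (by omega)
  have hx0 : (z + 1) ^ p - 1 + (z + 1) = lev p z := by unfold lev; omega
  have hmem : (z + 1) ^ p - 1 ∈ {i | val p T z i = 0} := by
    have := nx_val_le (p := p) T z ((z + 1) ^ p - 1)
    simp only [Set.mem_ofPred_eq]; omega
  set i₀ := sInf {i | val p T z i = 0} with hi₀
  have h0 : val p T z i₀ = 0 := Nat.sInf_mem ⟨_, hmem⟩
  have hle : i₀ ≤ (z + 1) ^ p - 1 := Nat.sInf_le hmem
  have hne : ∀ i < i₀, val p T z i ≠ 0 := fun i hi h =>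
    Nat.notMem_of_lt_sInf (s := {i | val p T z i = 0}) hi h
  have hit := nx_iter T z hx0 i₀ hne i₀ le_rfl
  obtain ⟨j, hj⟩ := Nat.exists_eq_add_of_le hle
  unfold nextZero fin
  rw [← hi₀]
  have : (step p T)^[(z + 1) ^ p - 1] ((z + 1) ^ p - 1, lev p z) = (0, z + 1 + i₀) := by
    conv_lhs => rw [show (step p T)^[(z + 1) ^ p - 1] = (step p T)^[j + i₀] by rw [hj, add_comm]]
    rw [Function.iterate_add_apply, hit, h0, zero_add, nx_fix]
  rw [this]

theorem lt_nextZero (p : ℕ) (T : ℕ → ℕ → ℕ → ℕ) (z : ℕ) : z < nextZero p T z := by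
  unfold nextZero; omega

theorem nextZero_le {p : ℕ} (hp : 1 ≤ p) (T : ℕ → ℕ → ℕ → ℕ) {z : ℕ} (hz : 1 ≤ z) :
    nextZero p T z ≤ lev p z := by
  rw [nextZero_eq hp T hz]; exact fin_le _ _ _ _

theorem fin_congr_win (p : ℕ) {T T' : ℕ → ℕ → ℕ → ℕ} {x c X : ℕ}
    (h : ∀ c', X ≤ c' → c' ≤ c → ∀ r ≤ x, ∀ k < x, T c' r k = T' c' r k) (hX : X ≤ fin p T x c) :
    fin p T' x c = fin p T x c := by
  induction x using Nat.strong_induction_on generalizing c with
  | _ x ih =>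
    rcases Nat.eq_zero_or_pos x with rfl | hx
    · rw [fin_zero, fin_zero]
    · have hXc : X ≤ c := hX.trans (fin_le p T x c)
      have hj : jump p (T c) x = jump p (T' c) x := jump_congr (h c hXc le_rfl)
      have hj1 : 1 ≤ jump p (T c) x := jump_pos p (T c) x
      rw [fin_step p T' hx.ne' c, ← hj, fin_step p T hx.ne' c]
      rw [fin_step p T hx.ne' c] at hX
      refine ih (x - jump p (T c) x) (by omega) (fun c' h1 h2 r hr k hk => ?_) hX
      exact h c' h1 (by omega) r (by omega) k (by omega)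

private lemma dep_gen (p x c M X : ℕ) (hx : x ≤ M) (Q : ℕ → Prop) :
    Dep (bx (Icc X c) (M + 1)) {f : ℕ × ℕ × ℕ → ℕ |
      X ≤ fin p (cur f) x c ∧ Sv p M (cur f) (fin p (cur f) x c) ∧ Q (fin p (cur f) x c)} := by
  have key : ∀ f g : ℕ × ℕ × ℕ → ℕ, (∀ i ∈ bx (Icc X c) (M + 1), f i = g i) →
      (X ≤ fin p (cur f) x c ∧ Sv p M (cur f) (fin p (cur f) x c) ∧ Q (fin p (cur f) x c)) →
      (X ≤ fin p (cur g) x c ∧ Sv p M (cur g) (fin p (cur g) x c) ∧ Q (fin p (cur g) x c)) := by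
    intro f g hfg hf
    obtain ⟨h1, h2, h3⟩ := hf
    have hag : ∀ c', X ≤ c' → c' ≤ c → ∀ r ≤ M, ∀ k ≤ M, cur f c' r k = cur g c' r k := by
      intro c' hc1 hc2 r hr k hk
      exact hfg (c', r, k) (Finset.mem_product.2 ⟨Finset.mem_Icc.2 ⟨hc1, hc2⟩,
        Finset.mem_product.2 ⟨Finset.mem_range.2 (by show r < M + 1; omega),
          Finset.mem_range.2 (by show k < M + 1; omega)⟩⟩)
    have heq : fin p (cur g) x c = fin p (cur f) x c :=
      fin_congr_win p (fun c' hc1 hc2 r hr k hk => hag c' hc1 hc2 r (hr.trans hx) k (hk.le.trans hx)) h1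
    rw [heq]
    refine ⟨h1, fun r hr hrM => ?_, h3⟩
    rw [← hag _ h1 (fin_le _ _ _ _) r hrM 0 (Nat.zero_le _)]
    exact h2 r hr hrM
  intro f g hfg
  exact ⟨key f g hfg, key g f fun i hi => (hfg i hi).symm⟩

/-- The badness depends only on the levels from `X` to `c`. -/
theorem dep_bad_win (p x c M X : ℕ) (hx : x ≤ M) :
    Dep (bx (Icc X c) (M + 1)) {f : ℕ × ℕ × ℕ → ℕ |
      ¬ (X ≤ fin p (cur f) x c ∧ Sv p M (cur f) (fin p (cur f) x c))} := by
  intro f g hfg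
  have h := dep_gen p x c M X hx (fun _ => True) f g hfg
  simp only [Set.mem_ofPred_eq, and_true] at h
  exact not_congr h

private lemma le_lev (p z : ℕ) : (z + 1) ^ p - 1 ≤ lev p z + 2 := by
  unfold lev
  omega

theorem dep_goodrun_eq {p : ℕ} (hp : 1 ≤ p) {z : ℕ} (hz : 1 ≤ z) (n : ℕ) :
    Dep (bx (Icc ((lev p z + 3) / 4) (lev p z)) (lev p z + 3)) {f : ℕ × ℕ × ℕ → ℕ |
      GoodRun p (cur f) z ∧ nextZero p (cur f) z = n} := by
  intro f g hfg
  have h := dep_gen p ((z + 1) ^ p - 1) (lev p z) (lev p z + 2) ((lev p z + 3) / 4)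
    (le_lev p z) (fun m => m = n) f g hfg
  simp only [Set.mem_ofPred_eq, ← nextZero_eq hp _ hz] at h
  have e : ∀ f : ℕ × ℕ × ℕ → ℕ, (GoodRun p (cur f) z ∧ nextZero p (cur f) z = n) ↔
      ((lev p z + 3) / 4 ≤ nextZero p (cur f) z ∧
        Sv p (lev p z + 2) (cur f) (nextZero p (cur f) z) ∧ nextZero p (cur f) z = n) := by
    intro f
    unfold GoodRun
    have : lev p z ≤ 4 * nextZero p (cur f) z ↔ (lev p z + 3) / 4 ≤ nextZero p (cur f) z := by
      omega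
    rw [this, and_assoc]
  show (GoodRun p (cur f) z ∧ nextZero p (cur f) z = n) ↔
    (GoodRun p (cur g) z ∧ nextZero p (cur g) z = n)
  rw [e f, e g]
  exact h

theorem dep_goodrun {p : ℕ} (hp : 1 ≤ p) {z : ℕ} (hz : 1 ≤ z) :
    Dep (bx (Icc ((lev p z + 3) / 4) (lev p z)) (lev p z + 3)) {f : ℕ × ℕ × ℕ → ℕ |
      GoodRun p (cur f) z} := by
  intro f g hfg
  have h1 := dep_goodrun_eq hp hz (nextZero p (cur f) z) f g hfg
  have h2 := dep_goodrun_eq hp hz (nextZero p (cur g) z) f g hfg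
  exact ⟨fun h => (h1.1 ⟨h, rfl⟩).1, fun h => (h2.2 ⟨h, rfl⟩).1⟩

theorem dep_winrun_eq {p : ℕ} (hp : 1 ≤ p) {z : ℕ} (hz : 1 ≤ z) (n : ℕ) :
    Dep (bx (Icc (lev p (z - 1) + 1) (lev p z)) (lev p z + 3)) {f : ℕ × ℕ × ℕ → ℕ |
      WinRun p (cur f) z ∧ nextZero p (cur f) z = n} := by
  intro f g hfg
  have h := dep_gen p ((z + 1) ^ p - 1) (lev p z) (lev p z + 2) (lev p (z - 1) + 1)
    (le_lev p z) (fun m => m = n) f g hfg
  simp only [Set.mem_ofPred_eq, ← nextZero_eq hp _ hz] at h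
  have e : ∀ f : ℕ × ℕ × ℕ → ℕ, (WinRun p (cur f) z ∧ nextZero p (cur f) z = n) ↔
      (lev p (z - 1) + 1 ≤ nextZero p (cur f) z ∧
        Sv p (lev p z + 2) (cur f) (nextZero p (cur f) z) ∧ nextZero p (cur f) z = n) := by
    intro f
    unfold WinRun
    rw [Nat.lt_iff_add_one_le, and_assoc]
  show (WinRun p (cur f) z ∧ nextZero p (cur f) z = n) ↔
    (WinRun p (cur g) z ∧ nextZero p (cur g) z = n)
  rw [e f, e g]
  exact h

theorem dep_winrun {p : ℕ} (hp : 1 ≤ p) {z : ℕ} (hz : 1 ≤ z) :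
    Dep (bx (Icc (lev p (z - 1) + 1) (lev p z)) (lev p z + 3)) {f : ℕ × ℕ × ℕ → ℕ |
      WinRun p (cur f) z} := by
  intro f g hfg
  have h1 := dep_winrun_eq hp hz (nextZero p (cur f) z) f g hfg
  have h2 := dep_winrun_eq hp hz (nextZero p (cur g) z) f g hfg
  exact ⟨fun h => (h1.1 ⟨h, rfl⟩).1, fun h => (h2.2 ⟨h, rfl⟩).1⟩


end Pool.Agent.L5helper32.GP
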