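import Pool.Agent.L5helper32.GR.Det

set_option autoImplicit false

open Finset MeasureTheory ProbabilityTheory

namespace Pool.Agent.L5helper32.GR

theorem nx_iter {p : ℕ} (T : ℕ → ℕ → ℕ) (z : ℕ) (hx0 : (z + 1) ^ p - 1 + (z + 1) = lev p z) (i₀ : ℕ)
    (hne : ∀ i < i₀, val p T z i ≠ 0) (i : ℕ) (hi : i ≤ i₀) :
    (step p T)^[i] ((z + 1) ^ p - 1, lev p z) = (val p T z i, val p T z i + (z + 1 + i)) := by
  induction i with
  | zero => simp only [Function.iterate_zero, id, val]; rw [add_zero, hx0]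
  | succ i ih =>
    rw [Function.iterate_succ_apply', ih (by omega)]
    have h0 := hne i (by omega)
    have hle := jump_le p (T (val p T z i + (z + 1 + i))) h0
    simp only [step, val, Prod.mk.injEq, true_and]
    omega

theorem nx_fix {p : ℕ} (T : ℕ → ℕ → ℕ) (c j : ℕ) : (step p T)^[j] (0, c) = (0, c) := by
  induction j with
  | zero => rfl
  | succ j ih =>
    rw [Function.iterate_succ_apply, show step p T (0, c) = (0, c) by
      simp [step, jump_zero], ih]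

theorem nx_val_le {p : ℕ} (T : ℕ → ℕ → ℕ) (z : ℕ) (i : ℕ) :
    val p T z i ≤ (z + 1) ^ p - 1 - i := by
  induction i with
  | zero => simp [val]
  | succ i ih =>
    have h1 := jump_pos p (T (val p T z i + (z + 1 + i))) (val p T z i)
    simp only [val]
    omega

theorem nextZero_eq {p : ℕ} (hp : 1 ≤ p) (T : ℕ → ℕ → ℕ) {z : ℕ} (hz : 1 ≤ z) :
    nextZero p T z = fin p T ((z + 1) ^ p - 1) (lev p z) := by
  have hpow : 1 ≤ (z + 1) ^ p := Nat.one_le_pow _ _ (by omega)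
  have hx0 : (z + 1) ^ p - 1 + (z + 1) = lev p z := by unfold lev; omega
  have hmem : (z + 1) ^ p - 1 ∈ {i | val p T z i = 0} := by
    have := nx_val_le (p := p) T z ((z + 1) ^ p - 1)
    simp only [Set.mem_ofPred_eq]; omega
  set i₀ := sInf {i | val p T z i = 0} with hi₀
  have h0 : val p T z i₀ = 0 := Nat.sInf_mem ⟨_, hmem⟩
  have hle : i₀ ≤ (z + 1) ^ p - 1 := Nat.sInf_le hmem
  have hne : ∀ i < i₀, val p T z i ≠ 0 := fun i hi h =>
    Nat.notMem_of_lt_sInf (s := {i | val p T z i = 0}) hi h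
  have hit := nx_iter T z hx0 i₀ hne i₀ le_rfl
  obtain ⟨j, hj⟩ := Nat.exists_eq_add_of_le hle
  unfold nextZero fin
  rw [← hi₀]
  have : (step p T)^[(z + 1) ^ p - 1] ((z + 1) ^ p - 1, lev p z) = (0, z + 1 + i₀) := by
    conv_lhs => rw [show (step p T)^[(z + 1) ^ p - 1] = (step p T)^[j + i₀] by rw [hj, add_comm]]
    rw [Function.iterate_add_apply, hit, h0, zero_add, nx_fix]
  rw [this]

theorem lt_nextZero (p : ℕ) (T : ℕ → ℕ → ℕ) (z : ℕ) : z < nextZero p T z := by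
  unfold nextZero; omega

theorem nextZero_le {p : ℕ} (hp : 1 ≤ p) (T : ℕ → ℕ → ℕ) {z : ℕ} (hz : 1 ≤ z) :
    nextZero p T z ≤ lev p z := by
  rw [nextZero_eq hp T hz]; exact fin_le _ _ _ _

theorem nx_congr {p : ℕ} (hp : 1 ≤ p) {z : ℕ} (hz : 1 ≤ z) {f g : ℕ × ℕ → ℕ}
    (h : ∀ i ∈ range (lev p z + 1) ×ˢ range (lev p z + 3), f i = g i) :
    nextZero p (fun c r => f (c, r)) z = nextZero p (fun c r => g (c, r)) z := by
  rw [nextZero_eq hp _ hz, nextZero_eq hp _ hz]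
  refine fin_congr p (fun c hc r hr => h (c, r) ?_)
  have : (z + 1) ^ p - 1 ≤ lev p z := by unfold lev; omega
  simp only [mem_product, mem_range]
  omega

theorem nx_good {p : ℕ} (hp : 1 ≤ p) {z : ℕ} (hz : 1 ≤ z) {f g : ℕ × ℕ → ℕ}
    (h : ∀ i ∈ range (lev p z + 1) ×ˢ range (lev p z + 3), f i = g i)
    (hf : GoodRun p (fun c r => f (c, r)) z) : GoodRun p (fun c r => g (c, r)) z := by
  have he := nx_congr hp hz h
  obtain ⟨h1, h2⟩ := hf
  refine ⟨he ▸ h1, ?_⟩
  rw [← he]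
  intro r hr hrM
  have h3 := h2 r hr hrM
  have hc := nextZero_le hp (fun c r => f (c, r)) hz
  have h4 := h (nextZero p (fun c r => f (c, r)) z, r) (by
    simp only [mem_product, mem_range]; omega)
  simp only at h3 ⊢
  rwa [← h4]

theorem dep_good {p : ℕ} (hp : 1 ≤ p) {z : ℕ} (hz : 1 ≤ z) :
    Dep (range (lev p z + 1) ×ˢ range (lev p z + 3)) {f : ℕ × ℕ → ℕ |
      GoodRun p (fun c r => f (c, r)) z} := by
  intro f g h
  exact ⟨fun hf => nx_good hp hz h hf, fun hg => nx_good hp hz (fun i hi => (h i hi).symm) hg⟩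

theorem dep_next {p : ℕ} (hp : 1 ≤ p) {z : ℕ} (hz : 1 ≤ z) (n : ℕ) :
    Dep (range (lev p z + 1) ×ˢ range (lev p z + 3)) {f : ℕ × ℕ → ℕ |
      nextZero p (fun c r => f (c, r)) z = n} := by
  intro f g h
  simp only [Set.mem_ofPred_eq]
  rw [nx_congr hp hz h]

theorem dep_run {p : ℕ} (hp : 1 ≤ p) {z : ℕ} (hz : 1 ≤ z) (n : ℕ) :
    Dep (range (lev p z + 1) ×ˢ range (lev p z + 3)) {f : ℕ × ℕ → ℕ |
      GoodRun p (fun c r => f (c, r)) z ∧ nextZero p (fun c r => f (c, r)) z = n} := by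
  intro f g h
  exact and_congr (dep_good hp hz f g h) (dep_next hp hz n f g h)

end Pool.Agent.L5helper32.GR
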